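import Mathlib
import Pool.Agent.H32.Sub

open Set Filter Topology

namespace Pool.Agent.Results.MP_a8308c_an.SumFree

/-- `x` is a transitive point of `T` -/
def Tran {X : Type} [TopologicalSpace X] (T : X → X) (x : X) : Prop :=
  Dense (range fun n : ℕ => T^[n] x)

open Pool.Agent.H32.Sub

def L (k : ℕ) : ℕ := 2 * 200 ^ k

lemma L_succ (k : ℕ) : L (k + 1) = 200 * L k := by unfold L; ring

lemma lt_L (k : ℕ) : k < L k := by
  have : k < 200 ^ k := Nat.lt_pow_self (by norm_num)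
  unfold L; omega

def Q (k t : ℕ) : Prop :=
  t = 0 ∨ t = 10 * L k ∨ t = 13 * L k ∨ t = 100 * L k ∨ t = 103 * L k + k.unpair.1

def S : ℕ → Set ℕ
  | 0 => {1}
  | k + 1 => {n | ∃ t s, Q k t ∧ s ∈ S k ∧ n = t + s}

lemma jl (k : ℕ) : k.unpair.1 < L k := (Nat.unpair_left_le k).trans_lt (lt_L k)

lemma S_lt : ∀ k, ∀ s ∈ S k, s < L k
  | 0, _, h => by rw [mem_singleton_iff.1 h]; decide
  | k + 1, _, ⟨t, s, h1, h2, e⟩ => by
    have := S_lt k s h2; have := jl k
    rw [L_succ]; unfold Q at h1; omega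

lemma S_free : ∀ k, ∀ a ∈ S k, ∀ b ∈ S k, a + b ∉ S k
  | 0, _, h, _, h' => by rw [mem_singleton_iff.1 h, mem_singleton_iff.1 h']; simp [S]
  | k + 1, _, ⟨t, s, h1, h2, rfl⟩, _, ⟨t', s', h1', h2', rfl⟩ => fun ⟨u, v, h3, h4, e⟩ => by
    have := S_lt k s h2; have := S_lt k s' h2'; have := S_lt k v h4; have := jl k
    refine S_free k s h2 s' h2' ((?_ : v = s + s') ▸ h4)
    unfold Q at *
    omega

lemma S_step {k t s : ℕ} (h : Q k t) (hs : s < L k) : t + s ∈ S (k + 1) ↔ s ∈ S k :=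
  ⟨fun ⟨u, v, h3, h4, e⟩ => by
    have := S_lt k v h4; have := jl k
    exact (by unfold Q at *; omega : v = s) ▸ h4, fun h' => ⟨t, s, h, h', rfl⟩⟩

lemma S_mono {k m : ℕ} (h : k ≤ m) : S k ⊆ S m :=
  monotone_nat_of_le_succ (f := S) (fun _ s hs => ⟨0, s, Or.inl rfl, hs, by simp⟩) h

def A : Set ℕ := ⋃ k, S k

lemma A_iff {k s : ℕ} (hs : s < L k) : s ∈ A ↔ s ∈ S k := by
  refine ⟨fun h => ?_, fun h => mem_iUnion.2 ⟨k, h⟩⟩
  obtain ⟨m, hm⟩ := mem_iUnion.1 h
  have : ∀ i, s ∈ S (k + i) → s < L (k + i) ∧ s ∈ S k := by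
    intro i
    induction i with
    | zero => exact fun h => ⟨hs, h⟩
    | succ i ih =>
      intro h
      have h1 : s < L (k + i) := hs.trans_le (Nat.mul_le_mul_left 2 (Nat.pow_le_pow_right
        (by norm_num) (by omega)))
      exact ⟨S_lt _ _ h, (ih ((S_step (Or.inl rfl) h1).1 (by rw [zero_add]; exact h))).2⟩
  exact (this m (S_mono (by omega) hm)).2

lemma A_step {k t s : ℕ} (h : Q k t) (hs : s < L k) : t + s ∈ A ↔ s ∈ A := by
  have := jl k
  rw [A_iff (k := k + 1) (by rw [L_succ]; unfold Q at h; omega), S_step h hs, A_iff hs]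

lemma A_free {a b : ℕ} (ha : a ∈ A) (hb : b ∈ A) : a + b ∉ A := fun h =>
  S_free (a + b) a ((A_iff (by have := lt_L (a + b); omega)).1 ha) b
    ((A_iff (by have := lt_L (a + b); omega)).1 hb) ((A_iff (lt_L _)).1 h)

open Classical in
noncomputable def o (n : ℕ) : ℕ → Bool := fun k => decide (n + k ∈ A)

def X : Set (ℕ → Bool) := closure (range o)

lemma inv : ∀ x ∈ X, (fun k => x (k + 1)) ∈ X := fun _ h => MapsTo.closure
  (f := fun (x : ℕ → Bool) k => x (k + 1)) (by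
    rintro _ ⟨n, rfl⟩; exact ⟨n + 1, by ext k; simp [o, add_assoc, add_comm 1]⟩) (by fun_prop) h

noncomputable def p (n : ℕ) : X := ⟨o n, subset_closure ⟨n, rfl⟩⟩

lemma p_iter (n m : ℕ) : (sh inv)^[n] (p m) = p (n + m) := by
  ext k; rw [sh_iter]; simp [p, o, add_assoc, add_left_comm]

lemma p_dense : Dense (range p) := fun x => by
  rw [closure_subtype, ← range_comp]; exact x.2

lemma p_step {k t a i : ℕ} (h : Q k t) (hs : a + i < L k) : (p (t + a)).1 i = (p a).1 i := by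
  simp only [p, o]
  rw [add_assoc, A_step h hs]

theorem result : ∃ (X : Type) (_ : MetricSpace X) (_ : CompactSpace X) (T : X → X),
    Continuous T ∧ Function.Surjective T ∧ (∃ z, Tran (Prod.map T T) z) ∧
      ∃ x, Tran T x ∧ ∀ y, ¬ Tran (Prod.map T T) (x, y) := by
  have : CompactSpace X := isCompact_iff_compactSpace.1 isClosed_closure.isCompact
  have : Nonempty X := ⟨p 0⟩
  refine ⟨X, TopologicalSpace.metrizableSpaceMetric X, ‹_›, sh inv, sh_cont inv, ?_,
    birk ((sh_cont inv).prodMap (sh_cont inv)) fun U V hU hV hu hv => ?_, p 0,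
    by simpa [Tran, p_iter] using p_dense, fun y h => ?_⟩
  · rw [← range_eq_univ, ← univ_subset_iff, ← p_dense.closure_eq]
    refine closure_minimal ?_ (isCompact_range (sh_cont inv)).isClosed
    rintro _ ⟨n, rfl⟩
    refine (isCompact_range (sh_cont inv)).isClosed.closure_subset (mem_closure_iff_nhds.2
      fun U hU => ?_)
    obtain ⟨M, hM⟩ := cyl hU
    have := lt_L (n + M)
    exact ⟨_, hM (p (10 * L (n + M) + n)) fun k hk => p_step (k := n + M) (by simp [Q]) (by omega),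
      p (10 * L (n + M) + n - 1), (p_iter 1 _).trans (by congr 1; omega)⟩
  · obtain ⟨⟨_, _⟩, ⟨⟨a, rfl⟩, ⟨b, rfl⟩⟩, hu⟩ := (p_dense.prod p_dense).exists_mem_open hU hu
    obtain ⟨⟨_, _⟩, ⟨⟨c, rfl⟩, ⟨d, rfl⟩⟩, hv⟩ := (p_dense.prod p_dense).exists_mem_open hV hv
    obtain ⟨M, hM⟩ := cyl2 (hU.mem_nhds hu)
    obtain ⟨N, hN⟩ := cyl2 (hV.mem_nhds hv)
    obtain ⟨k, h1, h2⟩ : ∃ k, k.unpair.1 = (c + b - (d + a)) + (d + a - (c + b)) ∧
        a + b + c + d + M + N < L k := ⟨Nat.pair _ (a + b + c + d + M + N), by rw [Nat.unpair_pair],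
      (Nat.right_le_pair _ _).trans_lt (lt_L _)⟩
    have key : ∀ n t1 t2 u1 u2, Q k t1 → Q k t2 → Q k u1 → Q k u2 → n + (t1 + a) = u1 + c →
        n + (t2 + b) = u2 + d → ∃ n, ∃ y ∈ U, (Prod.map (sh inv) (sh inv))^[n] y ∈ V := by
      intro n t1 t2 u1 u2 q1 q2 q3 q4 e1 e2
      refine ⟨n, (p (t1 + a), p (t2 + b)), hM _ (fun i hi => p_step q1 (by omega))
        fun i hi => p_step q2 (by omega), ?_⟩
      rw [Prod.map_iterate, Prod.map_apply, p_iter, p_iter, e1, e2]
      exact hN _ (fun i hi => p_step q3 (by omega)) fun i hi => p_step q4 (by omega)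
    rcases le_total (d + a) (c + b) with h | h
    · exact key (3 * L k + c - a) (10 * L k) (100 * L k) (13 * L k) (103 * L k + k.unpair.1)
        (by simp [Q]) (by simp [Q]) (by simp [Q]) (by simp [Q]) (by omega) (by omega)
    · exact key (3 * L k + d - b) (100 * L k) (10 * L k) (103 * L k + k.unpair.1) (13 * L k)
        (by simp [Q]) (by simp [Q]) (by simp [Q]) (by simp [Q]) (by omega) (by omega)
  · have one : 1 ∈ A := mem_iUnion.2 ⟨0, rfl⟩
    have key : ∀ a, ∃ n, n ∈ A ∧ y.1 (n + a) = true := by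
      intro a
      have := lt_L (a + 1)
      obtain ⟨_, ⟨n, rfl⟩, h1, h2⟩ := h.exists_mem_open
        ((clopen X 0 true).isOpen.prod (clopen X a true).isOpen)
        ⟨(p 1, p (10 * L (a + 1) + 1 - a)), by simpa [p, o] using one, by
          simp only [p, o, mem_ofPred_eq, decide_eq_true_eq]
          rw [Nat.sub_add_cancel (by omega), A_step (k := a + 1) (by simp [Q]) (by omega)]
          exact one⟩
      simp only [Prod.map_iterate, Prod.map_apply, mem_ofPred_eq, sh_iter] at h1 h2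
      exact ⟨n, by simpa [p, o] using h1, h2⟩
    obtain ⟨a, a1, a2⟩ := key 0
    obtain ⟨n, b1, b2⟩ := key a
    obtain ⟨_, ⟨m, rfl⟩, c1, c2⟩ := p_dense.exists_mem_open
      ((clopen X a true).inter (clopen X (n + a) true)).isOpen ⟨y, a2, b2⟩
    simp only [p, o, mem_ofPred_eq, decide_eq_true_eq] at c1 c2
    exact A_free b1 c1 (by rwa [add_left_comm])

end Pool.Agent.Results.MP_a8308c_an.SumFree
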